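import Pool.Agent.Run7.h6.ZW.H6

/-!
# Simultaneous measure for `ζ(7), ζ(9), ζ(11), ζ(13)`: non-vanishing, uniformly in `u`

The proofs of `H3`, `H4`, `H6` of `Pool.Agent.Run7.h6.ZW`, with the hypothesis on `u` weakened to
`|u i|_p ≤ p^(i+3)` and `p0` independent of `u` (port of `Pool/Agent/TH900/YM/NonV.lean`).
-/

open Polynomial Pool.Agent.H337R2 Filter Topology

namespace Pool.Agent.Run7.h6.ZM

open Pool.Agent.Run7.h6.ZW Pool.Agent.Run7.h6.ZW.H3
open Pool.Agent.H336R2.HD (H1_norm_zpow)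

noncomputable section

section loc

variable {p : ℕ} [hp : Fact p.Prime]

/-- the contribution of one pair of poles -/
theorem pair_term (H1_hs : H1st p) (hp30 : 100 ≤ p) (u : ℕ → ℚ) (hu : ∀ i, padicNorm p (u i) ≤ (p : ℚ) ^ (i + 3))
    {r e i j : ℕ} (hr1 : 1 ≤ r) (hr2 : 2 * r < p) (_ : e ≤ 70) (hj3 : 3 ≤ j) (hj14 : j ≤ 12)
    (hi1 : 1 ≤ i) (α : ℚ)
    (hα : padicNorm p (pa (sN p) (muN p) (PPn p * EE p (Qr p r e)) (r + j * p) i /
      (p : ℚ) ^ (i + e) - α) ≤ (p : ℚ)⁻¹) :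
    padicNorm p ((p : ℚ) ^ (4 - (e : ℤ)) *
      (pa (sN p) (muN p) (PPn p * EE p (Qr p r e)) (r + j * p) i *
        (u i - hs (i + 4) (r + j * p - 2 * p - 1)) +
      pa (sN p) (muN p) (PPn p * EE p (Qr p r e)) (16 * p - (r + j * p)) i *
        (u i - hs (i + 4) (16 * p - (r + j * p) - 2 * p - 1))) +
      α * (hs (i + 4) (j - 2) + (-1) ^ (i + 1) * hs (i + 4) (13 - j))) ≤ (p : ℚ)⁻¹ := by
  have hp0 := hp.out.pos
  have hjp : 3 * p ≤ j * p ∧ j * p ≤ 12 * p :=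
    ⟨Nat.mul_le_mul_right p hj3, Nat.mul_le_mul_right p hj14⟩
  have e1 : r + j * p - 2 * p - 1 = (j - 2) * p + (r - 1) := by
    have : (j - 2) * p + 2 * p = j * p := by
      rw [← Nat.add_mul]
      congr 1
      omega
    omega
  have e2 : 16 * p - (r + j * p) - 2 * p - 1 = (13 - j) * p + (p - r - 1) := by
    have : (13 - j) * p + j * p = 13 * p := by
      rw [← Nat.add_mul]
      congr 1
      omega
    omega
  have hk0 : ¬ (p : ℤ) ∣ ((r + j * p : ℕ) : ℤ) := by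
    rintro ⟨m, hm⟩
    have h1 : (p : ℤ) ∣ (r : ℤ) := ⟨m - j, by push_cast at hm; linarith⟩
    have h2 : p ∣ r := by exact_mod_cast h1
    have := Nat.le_of_dvd hr1 h2
    omega
  have hka := pa_near (p := p) hp30 r e (r + j * p) i ((mem_sN _).2 (by omega)) hk0
    (Or.inl ⟨j, by push_cast; ring⟩)
  rw [pa_reflect (p := p) (Qr p r e) (k := r + j * p) (i := i) (by omega) (by omega) hi1,
    e1, e2]
  set a := pa (sN p) (muN p) (PPn p * EE p (Qr p r e)) (r + j * p) i with ha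
  have hpi : (p : ℚ) ^ (i + e) ≠ 0 := pow_ne_zero _ p_pos'.ne'
  -- normalised coefficient
  set A := a / (p : ℚ) ^ (i + e) with hA
  have hA1 : padicNorm p A ≤ 1 := by
    rw [hA, padicNorm.div, norm_ppow, div_le_one (zpow_pos p_pos' _)]
    refine hka.trans (le_of_eq ?_)
    congr 1
    push_cast
    ring
  have haA : (p : ℚ) ^ (4 - (e : ℤ)) * a = A * (p : ℚ) ^ (i + 4) := by
    rw [hA, zpow_sub₀ p_pos'.ne', zpow_natCast, pow_add, pow_add]
    have h1 : (p : ℚ) ^ i ≠ 0 := pow_ne_zero _ p_pos'.ne'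
    have h2 : (p : ℚ) ^ e ≠ 0 := pow_ne_zero _ p_pos'.ne'
    rw [show ((p : ℚ) ^ (4 : ℤ)) = (p : ℚ) ^ 4 from rfl]
    field_simp
  have hb := H1_hs (r - 1) (j - 2) (i + 4) (by omega) (by omega) (by omega)
  have hb' := H1_hs (p - r - 1) (13 - j) (i + 4) (by omega) (by omega) (by omega)
  have hH := hs_norm_small (p := p) (i + 4) (j - 2) (by omega)
  have hH' := hs_norm_small (p := p) (i + 4) (13 - j) (by omega)
  set b := (p : ℚ) ^ (i + 4) * hs (i + 4) ((j - 2) * p + (r - 1)) with hbd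
  set b' := (p : ℚ) ^ (i + 4) * hs (i + 4) ((13 - j) * p + (p - r - 1)) with hbd'
  set H := hs (i + 4) (j - 2) with hHd
  set H' := hs (i + 4) (13 - j) with hHd'
  have key : (p : ℚ) ^ (4 - (e : ℤ)) *
      (a * (u i - hs (i + 4) ((j - 2) * p + (r - 1))) +
      (-1) ^ (i + 1) * a * (u i - hs (i + 4) ((13 - j) * p + (p - r - 1)))) +
      α * (H + (-1) ^ (i + 1) * H') =
      (((p : ℚ) ^ (4 - (e : ℤ)) * a * u i + (-1) ^ (i + 1) * ((p : ℚ) ^ (4 - (e : ℤ)) * a * u i)) -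
      (A * (b - H) + (-1) ^ (i + 1) * (A * (b' - H')))) - (A - α) * (H + (-1) ^ (i + 1) * H') := by
    have h1 : (p : ℚ) ^ (4 - (e : ℤ)) * a * hs (i + 4) ((j - 2) * p + (r - 1)) = A * b := by
      rw [haA, hbd]; ring
    have h2 : (p : ℚ) ^ (4 - (e : ℤ)) * a * hs (i + 4) ((13 - j) * p + (p - r - 1)) = A * b' := by
      rw [haA, hbd']; ring
    linear_combination (-1 : ℚ) * h1 - (-1) ^ (i + 1) * h2
  rw [key]
  have hu1 : padicNorm p ((p : ℚ) ^ (4 - (e : ℤ)) * a * u i) ≤ (p : ℚ)⁻¹ := by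
    have h1 : padicNorm p ((p : ℚ) ^ (4 - (e : ℤ)) * a) ≤ (p : ℚ) ^ ((e : ℤ) - 4) *
        (p : ℚ) ^ (-(i : ℤ) - e) := nmul (norm_pzpow e).le hka
    rw [← zpow_add₀ p_pos'.ne'] at h1
    have h2 := nmul h1 (hu i)
    refine h2.trans ?_
    rw [← zpow_natCast, ← zpow_add₀ p_pos'.ne', ← zpow_neg_one]
    apply zpow_le_zpow_right₀ p_one'
    push_cast
    omega
  have hs1 := norm_sgn (p := p) (i + 1)
  have hle : ∀ {x : ℚ}, padicNorm p x ≤ (p : ℚ)⁻¹ →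
      padicNorm p ((-1) ^ (i + 1) * x) ≤ (p : ℚ)⁻¹ := fun {x} hx => by
    have := nmul hs1 hx
    rwa [one_mul] at this
  have hAb : ∀ {x : ℚ}, padicNorm p x ≤ (p : ℚ)⁻¹ → padicNorm p (A * x) ≤ (p : ℚ)⁻¹ :=
    fun {x} hx => by
    have := nmul hA1 hx
    rwa [one_mul] at this
  have hHH : padicNorm p (H + (-1) ^ (i + 1) * H') ≤ 1 := by
    refine nadd hH ?_
    have := nmul hs1 hH'
    rwa [one_mul] at this
  refine nsub (nsub (nadd hu1 (hle hu1)) (nadd (hAb hb) (hle (hAb hb')))) ?_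
  have := nmul hα hHH
  rwa [mul_one] at this

/-- the contribution of the other poles -/
theorem rest_term (hp30 : 100 ≤ p) (u : ℕ → ℚ) (hu : ∀ i, padicNorm p (u i) ≤ (p : ℚ) ^ (i + 3))
    {r e i k : ℕ} (hr1 : 1 ≤ r) (hr2 : 2 * r < p) (he : e ≤ 70) (hi1 : 1 ≤ i) (hk : k ∈ sN p)
    (hrest : ∀ j ∈ Finset.Icc 3 12, k ≠ r + j * p ∧ k ≠ 16 * p - (r + j * p)) :
    padicNorm p ((p : ℚ) ^ (4 - (e : ℤ)) *
      (pa (sN p) (muN p) (PPn p * EE p (Qr p r e)) k i * (u i - hs (i + 4) (k - 2 * p - 1)))) ≤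
      (p : ℚ)⁻¹ := by
  by_cases h : 3 * p ≤ k ∧ k ≤ 13 * p
  · have h1 := pa_far (p := p) hp30 r e k i hk (rest_class hr1 hr2 h.1 h.2 hrest)
    have h2 := hs_norm_med (p := p) (i + 4) (k - 2 * p - 1) (by
      have : k ≤ 13 * p := h.2
      nlinarith [Nat.sub_le (k - 2 * p) 1, Nat.sub_le k (2 * p)])
    have h3 : padicNorm p (u i - hs (i + 4) (k - 2 * p - 1)) ≤ (p : ℚ) ^ (i + 4) :=
      nsub ((hu i).trans (pow_le_pow_right₀ p_one' (by omega))) h2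
    have h4 := nmul (norm_pzpow (p := p) e).le (nmul h1 h3)
    refine h4.trans ?_
    rw [← zpow_natCast, ← zpow_add₀ p_pos'.ne', ← zpow_add₀ p_pos'.ne', ← zpow_neg_one]
    apply zpow_le_zpow_right₀ p_one'
    push_cast
    omega
  · have h1 : pa (sN p) (muN p) (PPn p * EE p (Qr p r e)) k i = 0 := by
      unfold pa
      rw [muN_zero h, if_neg (by omega)]
    rw [h1, zero_mul, mul_zero, padicNorm.zero]
    exact inv0

/-- `xf` is small if all coefficients are -/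
lemma H1_xf_le (u : ℕ → ℚ) (hu : ∀ i, padicNorm p (u i) ≤ (p : ℚ) ^ (i + 3)) (hp30 : 100 ≤ p) (P : ℚ[X]) (W : ℚ)
    (hW : 0 ≤ W) (h : ∀ k ∈ sN p, ∀ i, padicNorm p (pa (sN p) (muN p) P k i) * (p : ℚ) ^ (i + 4) ≤ W) :
    padicNorm p (xf p u P) ≤ W := by
  have hp1 : (1 : ℚ) ≤ p := p_one'
  unfold xf
  apply padicNorm.sum_le' _ hW
  intro i _
  rw [padicNorm.mul]
  have e1 : padicNorm p (((Nat.choose (i + 3) 4 : ℕ) : ℚ)) ≤ 1 := padicNorm.of_nat _
  have e2 : padicNorm p ((∑ k ∈ sN p, pa (sN p) (muN p) P k i) * u i -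
      ∑ k ∈ sN p, pa (sN p) (muN p) P k i * hs (i + 4) (k - 2 * p - 1)) ≤ W := by
    refine padicNorm.sub.trans (max_le ?_ ?_)
    · rw [Finset.sum_mul]
      apply padicNorm.sum_le' _ hW
      intro k hk
      rw [padicNorm.mul]
      refine le_trans ?_ (h k hk i)
      apply mul_le_mul_of_nonneg_left _ (padicNorm.nonneg _)
      exact (hu i).trans (pow_le_pow_right₀ hp1 (by omega))
    · apply padicNorm.sum_le' _ hW
      intro k hk
      rw [padicNorm.mul]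
      refine le_trans ?_ (h k hk i)
      apply mul_le_mul_of_nonneg_left _ (padicNorm.nonneg _)
      apply hs_norm_med
      rw [sN, ss, Finset.mem_Icc] at hk
      have : 16 * p < p * p := Nat.mul_lt_mul_of_pos_right (by omega) hp.out.pos
      rw [sq]
      omega
  calc _ ≤ 1 * W := mul_le_mul e1 e2 (padicNorm.nonneg _) zero_le_one
    _ = W := one_mul W

/-- `H4_offdiag`, from `C1_pa_mul` -/
theorem H4_offdiag_of
    (C1_pa_mul : ∀ (E : ℚ[X]) {k : ℕ}, k ∈ sN p → ∀ (A : ℚ), 0 ≤ A → PB p (p : ℚ) A (TS (-(k : ℚ)) E) →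
      ∀ i : ℕ, padicNorm p (pa (sN p) (muN p) (PPn p * E) k i) ≤ (p : ℚ) ^ (-(eeN p p k) - i : ℤ) * A)
    (hp30 : 100 ≤ p) (u : ℕ → ℚ) (hu : ∀ i, padicNorm p (u i) ≤ (p : ℚ) ^ (i + 3))
    (r s l l' : ℕ) (hr1 : 1 ≤ r) (hr2 : 2 * r < p) (hs1 : 1 ≤ s) (hs2 : 2 * s < p) (hrs : r ≠ s)
    (hl : l < 36) (hl' : l' < 36) :
    padicNorm p ((p : ℚ) ^ (4 - (l : ℤ) - (l' : ℤ)) * NL p u
      ((XN p r ^ l * ∏ r' ∈ (Finset.Icc 1 ((p - 1) / 2)).erase r, XN p r' ^ 36) *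
       (XN p s ^ l' * ∏ r' ∈ (Finset.Icc 1 ((p - 1) / 2)).erase s, XN p r' ^ 36))) ≤ (p : ℚ)⁻¹ := by
  have hp0 : (0 : ℚ) < p := p_pos'
  rw [NL_apply]
  have key := H1_xf_le u hu hp30 (PPn p * EE p
      ((XN p r ^ l * ∏ r' ∈ (Finset.Icc 1 ((p - 1) / 2)).erase r, XN p r' ^ 36) *
       (XN p s ^ l' * ∏ r' ∈ (Finset.Icc 1 ((p - 1) / 2)).erase s, XN p r' ^ 36)))
    ((p : ℚ) ^ (4 - (l : ℤ) - (l' : ℤ)) * (p : ℚ)⁻¹) (by positivity) (by
      intro k hk i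
      have h1 := C1_pa_mul _ hk _ (H1_A_nonneg r s l l' k) (H1_PB r s l l' k) i
      have h2 := H1_A_le hp30 r s l l' hr1 hr2 hs1 hs2 hrs hl hl' k
      generalize eeN p p k = ek at h1 h2
      calc _ ≤ ((p : ℚ) ^ (-ek - i : ℤ) * H1_A p r s l l' k) * (p : ℚ) ^ (i + 4) :=
            mul_le_mul_of_nonneg_right h1 (by positivity)
        _ = (p : ℚ) ^ (4 - (l : ℤ) - (l' : ℤ)) *
            ((p : ℚ) ^ (((l : ℤ) + l') - ek) * H1_A p r s l l' k) := by
            have e1 : (p : ℚ) ^ (-ek - i : ℤ) * (p : ℚ) ^ (i + 4) =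
                (p : ℚ) ^ (4 - (l : ℤ) - (l' : ℤ)) * (p : ℚ) ^ (((l : ℤ) + l') - ek) := by
              rw [← zpow_natCast (p : ℚ) (i + 4), ← zpow_add₀ hp0.ne', ← zpow_add₀ hp0.ne']
              congr 1
              push_cast
              ring
            linear_combination (H1_A p r s l l' k) * e1
        _ ≤ _ := mul_le_mul_of_nonneg_left h2 (by positivity))
  rw [padicNorm.mul]
  have h5 : padicNorm p ((p : ℚ) ^ (4 - (l : ℤ) - (l' : ℤ))) = (p : ℚ) ^ (-(4 - (l : ℤ) - (l' : ℤ))) :=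
    H1_norm_zpow _
  rw [h5]
  calc _ ≤ (p : ℚ) ^ (-(4 - (l : ℤ) - (l' : ℤ))) * ((p : ℚ) ^ (4 - (l : ℤ) - (l' : ℤ)) * (p : ℚ)⁻¹) :=
        mul_le_mul_of_nonneg_left key (by positivity)
    _ = (p : ℚ)⁻¹ := by
        rw [← mul_assoc, ← zpow_add₀ hp0.ne', neg_add_cancel, zpow_zero, one_mul]

end loc

theorem H3_of {p : ℕ} [Fact p.Prime] (h1s : H1st p) (hp : 100 ≤ p) (u : ℕ → ℚ)
    (hu : ∀ i, padicNorm p (u i) ≤ (p : ℚ) ^ (i + 3)) (r : ℕ) (hr1 : 1 ≤ r) (hr2 : 2 * r < p) (h2s : H2st p r) :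
    ∃ w : ℚ, padicNorm p w = 1 ∧ ∀ e : ℕ, e ≤ 70 →
      padicNorm p ((p : ℚ) ^ (4 - (e : ℤ)) * NL p u (XN p r ^ e *
        ∏ r' ∈ (Finset.Icc 1 ((p - 1) / 2)).erase r, XN p r' ^ 72) -
        w * (-2 * r) ^ e * Fm e) ≤ (p : ℚ)⁻¹ := by
  obtain ⟨w, hw1, hw⟩ := h2s
  refine ⟨w, hw1, fun e he => ?_⟩
  obtain ⟨S, hS, hSr, hsum⟩ := sum_split (p := p) hr1 hr2
  show padicNorm p ((p : ℚ) ^ (4 - (e : ℤ)) * NL p u (Qr p r e) - w * (-2 * r) ^ e * Fm e) ≤ _
  have hN : (p : ℚ) ^ (4 - (e : ℤ)) * NL p u (Qr p r e) - w * (-2 * r) ^ e * Fm e =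
      ∑ i ∈ Finset.Icc 1 10, ((Nat.choose (i + 3) 4 : ℕ) : ℚ) *
      ((∑ j ∈ Finset.Icc 3 12, ((p : ℚ) ^ (4 - (e : ℤ)) *
      (pa (sN p) (muN p) (PPn p * EE p (Qr p r e)) (r + j * p) i *
        (u i - hs (i + 4) (r + j * p - 2 * p - 1)) +
      pa (sN p) (muN p) (PPn p * EE p (Qr p r e)) (16 * p - (r + j * p)) i *
        (u i - hs (i + 4) (16 * p - (r + j * p) - 2 * p - 1))) +
      (w * (-2 * r) ^ e * cf j i e) *
        (hs (i + 4) (j - 2) + (-1) ^ (i + 1) * hs (i + 4) (13 - j)))) +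
      ∑ k ∈ S, (p : ℚ) ^ (4 - (e : ℤ)) *
      (pa (sN p) (muN p) (PPn p * EE p (Qr p r e)) k i *
        (u i - hs (i + 4) (k - 2 * p - 1)))) := by
    have h1 : w * (-2 * (r : ℚ)) ^ e * Fm e = -∑ i ∈ Finset.Icc 1 10,
        ((Nat.choose (i + 3) 4 : ℕ) : ℚ) * ∑ j ∈ Finset.Icc 3 12,
        (w * (-2 * r) ^ e * cf j i e) *
        (hs (i + 4) (j - 2) + (-1) ^ (i + 1) * hs (i + 4) (13 - j)) := by
      rw [Fm_eq, mul_neg, Finset.sum_comm, Finset.mul_sum]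
      congr 1
      refine Finset.sum_congr rfl fun i _ => ?_
      rw [Finset.mul_sum, Finset.mul_sum]
      refine Finset.sum_congr rfl fun j _ => ?_
      ring
    have h2 : NL p u (Qr p r e) = ∑ i ∈ Finset.Icc 1 10, ((Nat.choose (i + 3) 4 : ℕ) : ℚ) *
        ∑ k ∈ sN p, pa (sN p) (muN p) (PPn p * EE p (Qr p r e)) k i *
        (u i - hs (i + 4) (k - 2 * p - 1)) := by
      rw [NL_apply]
      unfold xf
      refine Finset.sum_congr rfl fun i _ => ?_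
      congr 1
      rw [Finset.sum_mul, ← Finset.sum_sub_distrib]
      refine Finset.sum_congr rfl fun k _ => ?_
      ring
    rw [h1, sub_neg_eq_add, h2, Finset.mul_sum, ← Finset.sum_add_distrib]
    refine Finset.sum_congr rfl fun i _ => ?_
    rw [hsum]
    simp only [Finset.sum_add_distrib, ← Finset.mul_sum]
    ring
  rw [hN]
  apply padicNorm.sum_le' _ inv0
  intro i hi
  rw [Finset.mem_Icc] at hi
  have hc : padicNorm p ((Nat.choose (i + 3) 4 : ℕ) : ℚ) ≤ 1 := padicNorm.of_nat _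
  have h3 : ∀ {x : ℚ}, padicNorm p x ≤ (p : ℚ)⁻¹ →
      padicNorm p (((Nat.choose (i + 3) 4 : ℕ) : ℚ) * x) ≤ (p : ℚ)⁻¹ := fun {x} hx => by
    have := nmul hc hx
    rwa [one_mul] at this
  apply h3
  refine nadd ?_ ?_
  · apply padicNorm.sum_le' _ inv0
    intro j hj
    rw [Finset.mem_Icc] at hj
    refine pair_term h1s hp u hu hr1 hr2 he hj.1 hj.2 hi.1 _ ?_
    unfold cf
    split_ifs with hio
    · exact hw e j i he hj.1 hj.2 hi.1 hio
    · have hz : pa (sN p) (muN p) (PPn p * EE p (Qr p r e)) (r + j * p) i = 0 := by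
        unfold pa
        rw [muN_od hr1 hr2 hj.1 hj.2, if_neg hio]
      rw [hz, zero_div, mul_zero, sub_zero, padicNorm.zero]
      exact inv0
  · apply padicNorm.sum_le' _ inv0
    intro k hk
    exact rest_term hp u hu hr1 hr2 he hi.1 (hS hk) (hSr k hk)


theorem H4_offdiag {p : ℕ} [Fact p.Prime] (hp : 100 ≤ p) (u : ℕ → ℚ) (hu : ∀ i, padicNorm p (u i) ≤ (p : ℚ) ^ (i + 3))
    (r s l l' : ℕ) (hr1 : 1 ≤ r) (hr2 : 2 * r < p) (hs1 : 1 ≤ s) (hs2 : 2 * s < p) (hrs : r ≠ s)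
    (hl : l < 36) (hl' : l' < 36) :
    padicNorm p ((p : ℚ) ^ (4 - (l : ℤ) - (l' : ℤ)) * NL p u
      ((XN p r ^ l * ∏ r' ∈ (Finset.Icc 1 ((p - 1) / 2)).erase r, XN p r' ^ 36) *
       (XN p s ^ l' * ∏ r' ∈ (Finset.Icc 1 ((p - 1) / 2)).erase s, XN p r' ^ 36))) ≤ (p : ℚ)⁻¹ := by
  have hp2 : 16 * p < p ^ 2 := by
    have : 16 * p < p * p := Nat.mul_lt_mul_of_pos_right (by omega) (by omega)
    rw [sq]
    exact this
  exact H4_offdiag_of (fun E {k} hk A hA hE i => C1_pa_mul (by omega) hp2 E hk A hA hE i) hp u hu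
    r s l l' hr1 hr2 hs1 hs2 hrs hl hl'


theorem H3_diag {p : ℕ} [Fact p.Prime] (hp : 100 ≤ p) (u : ℕ → ℚ) (hu : ∀ i, padicNorm p (u i) ≤ (p : ℚ) ^ (i + 3))
    (r : ℕ) (hr1 : 1 ≤ r) (hr2 : 2 * r < p) :
    ∃ w : ℚ, padicNorm p w = 1 ∧ ∀ e : ℕ, e ≤ 70 →
      padicNorm p ((p : ℚ) ^ (4 - (e : ℤ)) * NL p u (XN p r ^ e *
        ∏ r' ∈ (Finset.Icc 1 ((p - 1) / 2)).erase r, XN p r' ^ 72) -
        w * (-2 * r) ^ e * Fm e) ≤ (p : ℚ)⁻¹ :=
  H3_of (fun r a e hr ha he => H336R2.HD.H1_hs r a e hr ha he) hp u hu r hr1 hr2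
    (H2_pa hp r hr1 hr2)


/-- statement of H3 -/
def H6_H3 : Prop := ∀ {p : ℕ} [Fact p.Prime] (_hp : 100 ≤ p) (u : ℕ → ℚ) (_hu : ∀ i, padicNorm p (u i) ≤ (p : ℚ) ^ (i + 3))
    (r : ℕ) (_hr1 : 1 ≤ r) (_hr2 : 2 * r < p),
    ∃ w : ℚ, padicNorm p w = 1 ∧ ∀ e : ℕ, e ≤ 70 →
      padicNorm p ((p : ℚ) ^ (4 - (e : ℤ)) * NL p u (XN p r ^ e *
        ∏ r' ∈ (Finset.Icc 1 ((p - 1) / 2)).erase r, XN p r' ^ 72) -
        w * (-2 * r) ^ e * Fm e) ≤ (p : ℚ)⁻¹

/-- statement of H4 -/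
def H6_H4 : Prop := ∀ {p : ℕ} [Fact p.Prime] (_hp : 100 ≤ p) (u : ℕ → ℚ) (_hu : ∀ i, padicNorm p (u i) ≤ (p : ℚ) ^ (i + 3))
    (r s l l' : ℕ) (_hr1 : 1 ≤ r) (_hr2 : 2 * r < p) (_hs1 : 1 ≤ s) (_hs2 : 2 * s < p) (_hrs : r ≠ s)
    (_hl : l < 36) (_hl' : l' < 36),
    padicNorm p ((p : ℚ) ^ (4 - (l : ℤ) - (l' : ℤ)) * NL p u
      ((XN p r ^ l * ∏ r' ∈ (Finset.Icc 1 ((p - 1) / 2)).erase r, XN p r' ^ 36) *
       (XN p s ^ l' * ∏ r' ∈ (Finset.Icc 1 ((p - 1) / 2)).erase s, XN p r' ^ 36))) ≤ (p : ℚ)⁻¹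


theorem H6_of (A2_gram_ne : H6_A2) (H3_diag : H6_H3) (H4_offdiag : H6_H4) (H5_local : H6_H5)
    : ∃ p0 : ℕ, ∀ p : ℕ, p0 ≤ p → p.Prime → ∀ u : ℕ → ℚ,
    (∀ i, padicNorm p (u i) ≤ (p : ℚ) ^ (i + 3)) → DET p u (18 * (p - 1)) ≠ 0 := by
  -- bounds on the constants
  obtain ⟨p1, hp1⟩ := H336R2.HD.H6_unit _ H5_local
  have hF : ∃ p2 : ℕ, ∀ e ∈ Finset.range 71, ∀ p : ℕ, p2 ≤ p → p.Prime → padicNorm p (Fm e) ≤ 1 := by
    choose f hf using fun e : ℕ => H336R2.HD.H6_int (Fm e)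
    refine ⟨(Finset.range 71).sup f, fun e he p hp hpp => hf e p ?_ hpp⟩
    exact (Finset.le_sup (f := f) he).trans hp
  obtain ⟨p2, hp2⟩ := hF
  refine ⟨p1 + p2 + 100, fun p hp hpp u hup => ?_⟩
  have : Fact p.Prime := ⟨hpp⟩
  have hp30 : 100 ≤ p := by omega
  have hodd : p % 2 = 1 := by
    rcases hpp.eq_two_or_odd with h | h
    · omega
    · exact h
  set h := (p - 1) / 2 with hh
  have hph : p = 2 * h + 1 := by omega
  -- choose the units
  have hw : ∀ r : Fin h, ∃ w : ℚ, padicNorm p w = 1 ∧ ∀ e : ℕ, e ≤ 70 →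
      padicNorm p ((p : ℚ) ^ (4 - (e : ℤ)) * NL p u (XN p (r.1 + 1) ^ e *
        ∏ r' ∈ (Finset.Icc 1 ((p - 1) / 2)).erase (r.1 + 1), XN p r' ^ 72) -
        w * (-2 * ((r.1 + 1 : ℕ) : ℚ)) ^ e * Fm e) ≤ (p : ℚ)⁻¹ := by
    intro r
    have hr := r.2
    exact H3_diag hp30 u hup (r.1 + 1) (by omega) (by omega)
  choose w hw1 hw2 using hw
  -- the Gram matrix
  set G : Matrix (Fin 36 × Fin h) (Fin 36 × Fin h) ℚ :=
    Matrix.of fun a b => NL p u (H6_P p (a.2.1 + 1) a.1.1 * H6_P p (b.2.1 + 1) b.1.1) with hG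
  have key : G.det ≠ 0 := by
    set c : Fin 36 × Fin h → ℚ := fun a => (p : ℚ) ^ (2 - (a.1.1 : ℤ)) with hc
    set M : Matrix (Fin 36 × Fin h) (Fin 36 × Fin h) ℚ :=
      Matrix.of fun a b => c a * c b * G a b with hM
    set Bl : Fin h → Matrix (Fin 36) (Fin 36) ℚ := fun r =>
      Matrix.of fun l l' => w r * (-2 * ((r.1 + 1 : ℕ) : ℚ)) ^ (l.1 + l'.1) * Fm (l.1 + l'.1) with hBl
    have hp0 : (p : ℚ) ≠ 0 := by exact_mod_cast hpp.ne_zero
    have hcc : ∀ a b : Fin 36 × Fin h, c a * c b = (p : ℚ) ^ (4 - (a.1.1 : ℤ) - (b.1.1 : ℤ)) := by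
      intro a b
      simp only [hc]
      rw [← zpow_add₀ hp0]
      congr 1
      ring
    have hM0 : M.det ≠ 0 := by
      apply H336R2.HD.A6_det_congr p M (Matrix.blockDiagonal Bl)
      · intro a b
        rw [Matrix.blockDiagonal_apply]
        split_ifs with hab
        · simp only [hBl, Matrix.of_apply]
          have ha := a.1.2
          have hb := b.1.2
          have h1 : padicNorm p (Fm (a.1.1 + b.1.1)) ≤ 1 :=
            hp2 _ (Finset.mem_range.2 (by omega)) p (by omega) hpp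
          have h2 : padicNorm p ((-2 * ((a.2.1 + 1 : ℕ) : ℚ)) ^ (a.1.1 + b.1.1)) ≤ 1 := by
            have h3 : ((-2 * ((a.2.1 + 1 : ℕ) : ℚ)) ^ (a.1.1 + b.1.1)) =
                (((-2 * ((a.2.1 + 1 : ℕ) : ℤ)) ^ (a.1.1 + b.1.1) : ℤ) : ℚ) := by
              push_cast
              ring
            rw [h3]
            exact padicNorm.of_int _
          rw [padicNorm.mul, padicNorm.mul, hw1, one_mul]
          exact mul_le_one₀ h2 (padicNorm.nonneg _) h1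
        · simp
      · intro a b
        rw [Matrix.blockDiagonal_apply]
        have ha := a.1.2
        have hb := b.1.2
        have ha2 := a.2.2
        have hb2 := b.2.2
        have hMab : M a b = (p : ℚ) ^ (4 - (a.1.1 : ℤ) - (b.1.1 : ℤ)) *
            NL p u (H6_P p (a.2.1 + 1) a.1.1 * H6_P p (b.2.1 + 1) b.1.1) := by
          simp only [hM, hG, Matrix.of_apply]
          rw [hcc]
        split_ifs with hab
        · rw [hMab, ← hab, H6_P_mul]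
          have h1 := hw2 a.2 (a.1.1 + b.1.1) (by omega)
          have h2 : (4 - ((a.1.1 + b.1.1 : ℕ) : ℤ)) = 4 - (a.1.1 : ℤ) - (b.1.1 : ℤ) := by
            push_cast
            ring
          rw [h2] at h1
          exact h1
        · rw [hMab, sub_zero]
          apply H4_offdiag hp30 u hup (a.2.1 + 1) (b.2.1 + 1) a.1.1 b.1.1 (by omega) (by omega)
            (by omega) (by omega) _ ha hb
          intro h1
          apply hab
          ext
          omega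
      · rw [Matrix.det_blockDiagonal]
        have hdet : ∀ r : Fin h, padicNorm p (Bl r).det = 1 := by
          intro r
          have hr := r.2
          have h1 : Bl r = Matrix.of fun l l' => (w r) *
              (Matrix.of fun l l' : Fin 36 => ((-2 * ((r.1 + 1 : ℕ) : ℚ)) ^ l.1) *
                ((-2 * ((r.1 + 1 : ℕ) : ℚ)) ^ l'.1) *
                (Matrix.of fun l l' : Fin 36 => Fm (l.1 + l'.1)) l l') l l' := by
            ext l l'
            simp only [hBl, Matrix.of_apply]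
            ring
          rw [h1, Matrix.det_mul_column (fun _ => w r), H336R2.HD.H6_det_scale]
          have h2 : padicNorm p (-2 * ((r.1 + 1 : ℕ) : ℚ)) = 1 := by
            have h3 : (-2 * ((r.1 + 1 : ℕ) : ℚ)) = ((-(2 * (r.1 + 1) : ℕ) : ℤ) : ℚ) := by
              push_cast
              ring
            rw [h3, padicNorm.int_eq_one_iff]
            intro h4
            rw [Int.dvd_neg, Int.natCast_dvd_natCast] at h4
            have := Nat.le_of_dvd (by omega) h4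
            omega
          have hprod : ∀ f : Fin 36 → ℚ, (∀ i, padicNorm p (f i) = 1) → padicNorm p (∏ i, f i) = 1 := by
            intro f hf
            have h4 : padicNorm p (∏ i, f i) = ∏ i, padicNorm p (f i) := by
              exact map_prod (⟨⟨fun x => padicNorm p x, padicNorm.one⟩, fun x y => padicNorm.mul x y⟩ :
                ℚ →* ℚ) f Finset.univ
            rw [h4]
            exact Finset.prod_eq_one fun i _ => hf i
          have h5 : ∀ i : Fin 36, padicNorm p ((-2 * ((r.1 + 1 : ℕ) : ℚ)) ^ i.1) = 1 := by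
            intro i
            have h6 : ∀ k : ℕ, padicNorm p ((-2 * ((r.1 + 1 : ℕ) : ℚ)) ^ k) = 1 := by
              intro k
              induction k with
              | zero => simp
              | succ k ih => rw [pow_succ, padicNorm.mul, ih, h2, one_mul]
            exact h6 i.1
          rw [padicNorm.mul, padicNorm.mul, padicNorm.mul, hprod _ (fun _ => hw1 r), hprod _ h5,
            hp1 p (by omega) hpp]
          norm_num
        have hprod2 : padicNorm p (∏ r, (Bl r).det) = ∏ r, padicNorm p (Bl r).det := by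
          exact map_prod (⟨⟨fun x => padicNorm p x, padicNorm.one⟩, fun x y => padicNorm.mul x y⟩ :
            ℚ →* ℚ) (fun r => (Bl r).det) Finset.univ
        rw [hprod2]
        exact Finset.prod_eq_one fun r _ => hdet r
    intro h0
    apply hM0
    rw [hM, H336R2.HD.H6_det_scale, h0, mul_zero, mul_zero]
  -- conclusion
  have hcard : Fintype.card (Fin 36 × Fin h) = Fintype.card (Fin (18 * (p - 1))) := by
    simp only [Fintype.card_prod, Fintype.card_fin]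
    omega
  obtain ⟨e⟩ := Fintype.card_eq.1 hcard
  unfold DET
  apply A2_gram_ne (NL p u) (18 * (p - 1)) e (fun a => H6_P p (a.2.1 + 1) a.1.1)
  · intro a
    have ha := a.1.2
    have ha2 := a.2.2
    exact H6_P_natDegree p _ _ (by omega) (by omega) ha hp30 hodd
  · exact key


/-- non-vanishing -/
theorem nonvanish : ∃ p0 : ℕ, ∀ p : ℕ, p0 ≤ p → p.Prime → ∀ u : ℕ → ℚ,
    (∀ i, padicNorm p (u i) ≤ (p : ℚ) ^ (i + 3)) → DET p u (18 * (p - 1)) ≠ 0 :=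
  H6_of (fun N m _ _ _ e P hP h => H336R2.HD.A2_gram_ne N m e P hP h)
    (fun hp u hu r hr1 hr2 => H3_diag hp u hu r hr1 hr2)
    (fun hp u hu r s l l' hr1 hr2 hs1 hs2 hrs hl hl' =>
      H4_offdiag hp u hu r s l l' hr1 hr2 hs1 hs2 hrs hl hl')
    H5_local

end

end Pool.Agent.Run7.h6.ZM
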