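import Pool.Agent.Run7.h6.ZM.Rho
import Pool.Agent.TH900.OM.KG

/-!
# Simultaneous measure for `ζ(7), ζ(9), ζ(11), ζ(13)`: numerical bound of the constants of `Rho.lean`
-/

open Filter Topology Pool.Agent.TH900.OM

namespace Pool.Agent.Run7.h6.ZM

noncomputable section

/-- the constant in front of the exponential -/
def CK : ℝ := 14 * 102 * 102 * Real.exp 4 * Real.exp 10 * (19.7 * 19.8 * (160 / 7) / 92) ^ 10 *
  (10 * 11 ^ 20) ^ 6 * (10 * 9 ^ 20) ^ 4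

lemma brick_num (l n : ℕ) (hl : 1 ≤ l) (hn : 1 ≤ n) :
    (((l * n : ℕ) : ℝ) + 1) ^ (2 * 10) * 2 ^ (l * n) / ((l * n).factorial : ℝ) ≤
      (((l + 1 : ℕ) : ℝ) * n) ^ 20 * (((2 * Real.exp 1 / l) ^ l) ^ n / ((n : ℝ) ^ n) ^ l) := by
  have hn1 : (1 : ℝ) ≤ n := by exact_mod_cast hn
  have hl1 : (1 : ℝ) ≤ l := by exact_mod_cast hl
  have h1 := inv_fac_le (l * n) (Nat.mul_pos hl hn)
  have h2 : (((l * n : ℕ) : ℝ) + 1) ^ (2 * 10) ≤ (((l + 1 : ℕ) : ℝ) * n) ^ 20 := by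
    apply pow_le_pow_left₀ (by positivity)
    push_cast
    linarith
  rw [div_eq_mul_inv, mul_assoc]
  refine mul_le_mul h2 ?_ (by positivity) (by positivity)
  refine (mul_le_mul_of_nonneg_left h1 (by positivity)).trans (le_of_eq ?_)
  have e1 : Real.exp ((l * n : ℕ) : ℝ) = (Real.exp 1) ^ (l * n) := by
    rw [← Real.exp_nat_mul, mul_one]
  rw [e1]
  push_cast
  rw [← pow_mul (2 * Real.exp 1 / (l : ℝ)), ← pow_mul (n : ℝ), mul_comm n l, mul_pow (l : ℝ), div_pow, mul_pow,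
    div_div, mul_div_assoc]

lemma a_num : (19.7 * 19.8 * (160 / 7) / 92 : ℝ) ^ 92 * (1 / 5 ^ 60) * (1 / 4 ^ 32) ≤ 2 ^ 404 := by
  rw [show 404 = 202 + 202 from rfl, pow_add]
  norm_num

lemma KK_le {n : ℕ} (hn : 1 ≤ n) : KK n ≤ CK * (n : ℝ) ^ 213 * Real.exp (501 * n) := by
  have hn1 : (1 : ℝ) ≤ n := by exact_mod_cast hn
  have hn0 : (0 : ℝ) < n := by linarith
  have hpi := Real.pi_lt_d2
  have f0 : (((92 * n + 10 : ℕ) : ℝ)) ≤ 102 * n := by push_cast; linarith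
  have f1 : Real.exp (2 * Real.pi * (((92 * n + 10 : ℕ) : ℝ) / 16)) ≤ Real.exp 4 * Real.exp (36.225 * n) := by
    rw [← Real.exp_add]
    apply Real.exp_le_exp.2
    push_cast
    nlinarith
  have f2 : (19.8 * (n : ℝ)) ^ (92 * n + 9) ≤ (19.8 * n) ^ (92 * n + 10) :=
    pow_le_pow_right₀ (by linarith) (by omega)
  have f3 : ((7 / 160 : ℝ) ^ (92 * n + 9))⁻¹ ≤ (160 / 7) ^ (92 * n + 10) := by
    rw [← inv_pow]
    have : (7 / 160 : ℝ)⁻¹ = 160 / 7 := by norm_num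
    rw [this]
    exact pow_le_pow_right₀ (by norm_num) (by omega)
  have f4 : (((92 * n + 9).factorial : ℝ))⁻¹ ≤ (102 * n) * (Real.exp 10 * (Real.exp 92) ^ n /
      (92 * n) ^ (92 * n + 10)) := by
    refine (inv_fac_pred_le (92 * n + 9)).trans ?_
    have e1 : Real.exp ((92 * n + 9 + 1 : ℕ) : ℝ) = Real.exp 10 * (Real.exp 92) ^ n := by
      rw [← Real.exp_nat_mul, ← Real.exp_add]
      congr 1
      push_cast
      ring
    rw [e1]
    refine mul_le_mul (by push_cast; linarith) ?_ (by positivity) (by positivity)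
    apply div_le_div_of_nonneg_left (by positivity) (by positivity)
    rw [show 92 * n + 9 + 1 = 92 * n + 10 by ring]
    apply pow_le_pow_left₀ (by positivity)
    push_cast
    linarith
  have f5 := brick_num 10 n (by norm_num) hn
  have f6 := brick_num 8 n (by norm_num) hn
  have g : KK n ≤ (14 * n) * (((102 * n) *
      ((Real.exp 4 * Real.exp (36.225 * n) * (19.7 * (n : ℝ)) ^ (92 * n + 10)) *
      ((19.8 * (n : ℝ)) ^ (92 * n + 10) * ((160 / 7) ^ (92 * n + 10) *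
        ((102 * n) * (Real.exp 10 * (Real.exp 92) ^ n / (92 * n) ^ (92 * n + 10))))))) *
      ((10 * ((((10 + 1 : ℕ) : ℝ) * n) ^ 20 * (((2 * Real.exp 1 / (10 : ℕ)) ^ 10) ^ n / ((n : ℝ) ^ n) ^ 10))) ^ 6 *
        (10 * ((((8 + 1 : ℕ) : ℝ) * n) ^ 20 * (((2 * Real.exp 1 / (8 : ℕ)) ^ 8) ^ n / ((n : ℝ) ^ n) ^ 8))) ^ 4)) := by
    unfold KK
    apply mul_le_mul_of_nonneg_left _ (by positivity)
    refine mul_le_mul ?_ ?_ (by positivity) (by positivity)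
    · refine mul_le_mul f0 ?_ (by positivity) (by positivity)
      refine mul_le_mul (mul_le_mul_of_nonneg_right f1 (by positivity)) ?_ (by positivity) (by positivity)
      rw [div_eq_mul_inv, mul_inv]
      exact mul_le_mul f2 (mul_le_mul f3 f4 (by positivity) (by positivity)) (by positivity) (by positivity)
    · refine mul_le_mul (pow_le_pow_left₀ (by positivity) (mul_le_mul_of_nonneg_left f5 (by norm_num)) _)
        (pow_le_pow_left₀ (by positivity) (mul_le_mul_of_nonneg_left f6 (by norm_num)) _) (by positivity)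
        (by positivity)
  refine g.trans ?_
  have k0 : (19.7 * (n : ℝ)) ^ (92 * n + 10) * ((19.8 * (n : ℝ)) ^ (92 * n + 10) * ((160 / 7) ^ (92 * n + 10) /
      (92 * n) ^ (92 * n + 10))) = (19.7 * 19.8 * (160 / 7) / 92) ^ 10 * (n : ℝ) ^ 10 *
      (((19.7 * 19.8 * (160 / 7) / 92) ^ 92) ^ n * ((n : ℝ) ^ n) ^ 92) := by
    have e1 : (19.7 * (n : ℝ)) ^ (92 * n + 10) * ((19.8 * (n : ℝ)) ^ (92 * n + 10) * ((160 / 7) ^ (92 * n + 10) /
      (92 * n) ^ (92 * n + 10))) = (19.7 * 19.8 * (160 / 7) / 92 * (n : ℝ)) ^ (92 * n + 10) := by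
      rw [← div_pow, ← mul_pow, ← mul_pow]
      congr 1
      field_simp
    rw [e1, pow_add, mul_pow _ _ 10, mul_pow _ _ (92 * n), pow_mul _ 92 n, ← pow_mul (n : ℝ) n 92, mul_comm n 92]
    ring
  have k1 : (((2 * Real.exp 1 / ((10 : ℕ) : ℝ)) ^ 10) ^ n) ^ 6 * (((2 * Real.exp 1 / ((8 : ℕ) : ℝ)) ^ 8) ^ n) ^ 4 *
      (Real.exp 92) ^ n * ((19.7 * 19.8 * (160 / 7) / 92) ^ 92) ^ n ≤ Real.exp (464.1 * n) := by
    have e0 : Real.exp 92 = (Real.exp 1) ^ 92 := by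
      rw [← Real.exp_nat_mul]; norm_num
    have e1 : (((2 * Real.exp 1 / ((10 : ℕ) : ℝ)) ^ 10) ^ n) ^ 6 * (((2 * Real.exp 1 / ((8 : ℕ) : ℝ)) ^ 8) ^ n) ^ 4 *
      (Real.exp 92) ^ n * ((19.7 * 19.8 * (160 / 7) / 92) ^ 92) ^ n =
      ((Real.exp 1) ^ 184 * ((19.7 * 19.8 * (160 / 7) / 92 : ℝ) ^ 92 * (1 / 5 ^ 60) * (1 / 4 ^ 32))) ^ n := by
      rw [← pow_mul _ n 6, ← pow_mul _ n 4, mul_comm n 6, mul_comm n 4, pow_mul _ 6 n, pow_mul _ 4 n,
        ← mul_pow, ← mul_pow, ← mul_pow, e0]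
      congr 1
      push_cast
      rw [show (2 * Real.exp 1 / 10 : ℝ) = Real.exp 1 * (1 / 5) by ring,
        show (2 * Real.exp 1 / 8 : ℝ) = Real.exp 1 * (1 / 4) by ring]
      generalize (19.7 * 19.8 * (160 / 7) / 92 : ℝ) ^ 92 = A
      generalize Real.exp 1 = E
      ring
    rw [e1]
    have h1 : (Real.exp 1) ^ 184 * ((19.7 * 19.8 * (160 / 7) / 92 : ℝ) ^ 92 * (1 / 5 ^ 60) * (1 / 4 ^ 32)) ≤
        Real.exp 464.1 := by
      refine (mul_le_mul_of_nonneg_left a_num (by positivity)).trans ?_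
      have e2 : (2 : ℝ) ^ 404 = Real.exp (404 * Real.log 2) := by
        rw [show (404 : ℝ) * Real.log 2 = ((404 : ℕ) : ℝ) * Real.log 2 by norm_num, Real.exp_nat_mul,
          Real.exp_log (by norm_num)]
      rw [e2, ← Real.exp_nat_mul, ← Real.exp_add]
      apply Real.exp_le_exp.2
      have := Real.log_two_lt_d9
      push_cast
      linarith
    refine (pow_le_pow_left₀ (by positivity) h1 n).trans (le_of_eq ?_)
    rw [← Real.exp_nat_mul]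
    congr 1
    ring
  have hT : (0 : ℝ) < (n : ℝ) ^ n := by positivity
  have e : (14 * (n : ℝ)) * (((102 * n) *
      ((Real.exp 4 * Real.exp (36.225 * n) * (19.7 * (n : ℝ)) ^ (92 * n + 10)) *
      ((19.8 * (n : ℝ)) ^ (92 * n + 10) * ((160 / 7) ^ (92 * n + 10) *
        ((102 * n) * (Real.exp 10 * (Real.exp 92) ^ n / (92 * n) ^ (92 * n + 10))))))) *
      ((10 * ((((10 + 1 : ℕ) : ℝ) * n) ^ 20 * (((2 * Real.exp 1 / (10 : ℕ)) ^ 10) ^ n / ((n : ℝ) ^ n) ^ 10))) ^ 6 *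
        (10 * ((((8 + 1 : ℕ) : ℝ) * n) ^ 20 * (((2 * Real.exp 1 / (8 : ℕ)) ^ 8) ^ n / ((n : ℝ) ^ n) ^ 8))) ^ 4)) =
      CK * (n : ℝ) ^ 213 * (Real.exp (36.225 * n) *
      ((((2 * Real.exp 1 / ((10 : ℕ) : ℝ)) ^ 10) ^ n) ^ 6 * (((2 * Real.exp 1 / ((8 : ℕ) : ℝ)) ^ 8) ^ n) ^ 4 *
      (Real.exp 92) ^ n * ((19.7 * 19.8 * (160 / 7) / 92) ^ 92) ^ n)) := by
    have e1 : ∀ E4 E36 a b c d E10 E92 p q r : ℝ, (14 * (n : ℝ)) * (((102 * n) * ((E4 * E36 * a) *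
      (b * (c * ((102 * n) * (E10 * E92 / d)))))) * ((10 * ((11 * n) ^ 20 * (p / r ^ 10))) ^ 6 *
        (10 * ((9 * n) ^ 20 * (q / r ^ 8))) ^ 4)) =
        14 * 102 * 102 * E4 * E10 * (10 * 11 ^ 20) ^ 6 * (10 * 9 ^ 20) ^ 4 * (n : ℝ) ^ 203 *
          (a * (b * (c / d))) * (E36 * E92 * p ^ 6 * q ^ 4) * ((1 / r) ^ 92) := by
      intro E4 E36 a b c d E10 E92 p q r
      ring
    push_cast
    push_cast at k0
    rw [e1, k0]
    have e2 : ((n : ℝ) ^ n) ^ 92 * (1 / (n : ℝ) ^ n) ^ 92 = 1 := by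
      rw [← mul_pow, mul_one_div_cancel hT.ne', one_pow]
    unfold CK
    generalize ((n : ℝ) ^ n) ^ 92 = T1 at *
    generalize (1 / (n : ℝ) ^ n) ^ 92 = T2 at *
    generalize ((19.7 * 19.8 * (160 / 7) / 92 : ℝ) ^ 92) ^ n = A1
    generalize ((19.7 * 19.8 * (160 / 7) / 92 : ℝ)) ^ 10 = A2
    generalize ((2 * Real.exp 1 / (10 : ℝ)) ^ 10) ^ n = P1
    generalize ((2 * Real.exp 1 / (8 : ℝ)) ^ 8) ^ n = P2
    linear_combination (14 * 102 * 102 * Real.exp 4 * Real.exp 10 * (10 * 11 ^ 20) ^ 6 * (10 * 9 ^ 20) ^ 4 *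
      (n : ℝ) ^ 203 * A2 * (n : ℝ) ^ 10 * A1 * (Real.exp (36.225 * n) * Real.exp 92 ^ n * P1 ^ 6 * P2 ^ 4)) * e2
  rw [e]
  apply mul_le_mul_of_nonneg_left _ (by unfold CK; positivity)
  refine (mul_le_mul_of_nonneg_left k1 (by positivity)).trans ?_
  rw [← Real.exp_add]
  apply Real.exp_le_exp.2
  linarith

/-- for large `n`, `C KK(n) ≤ e^{502 n}` -/
theorem KK_small (C : ℝ) (hC : 0 ≤ C) : ∀ᶠ n : ℕ in atTop, C * KK n * Real.exp (-(502 * n)) ≤ 1 := by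
  filter_upwards [exp_poly (C * CK) 1 1 213 one_pos one_pos, eventually_ge_atTop 1] with n h1 h2
  refine le_trans ?_ h1
  have h := KK_le h2
  have hn1 : (1 : ℝ) ≤ n := by exact_mod_cast h2
  calc C * KK n * Real.exp (-(502 * n)) ≤
      C * (CK * (n : ℝ) ^ 213 * Real.exp (501 * n)) * Real.exp (-(502 * n)) := by
        apply mul_le_mul_of_nonneg_right _ (Real.exp_pos _).le
        exact mul_le_mul_of_nonneg_left h hC
    _ = C * CK * (n : ℝ) ^ 213 * (Real.exp (501 * n) * Real.exp (-(502 * n))) := by ring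
    _ = _ := by
        rw [← Real.exp_add]
        congr 2
        ring

end

end Pool.Agent.Run7.h6.ZM
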