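import Pool.Agent.TH900.OM.RG
import Pool.Agent.Run7.h6.ZW.V2

/-!
# Simultaneous measure for `ζ(7), ζ(9), ζ(11), ζ(13)`: bound for the coefficients of the `u i`
-/

open Polynomial Pool.Agent.H337R2 Pool.Agent.TH900.OM

namespace Pool.Agent.Run7.h6.ZM

open Pool.Agent.Run7.h6.ZW

noncomputable section

lemma zv_eq (r : ℝ) : zv 0 r = z0 r := by
  unfold zv z0
  push_cast
  ring

lemma muN_le (n k : ℕ) : muN n k ≤ 10 := mu_le_length 16 n ds10 k

lemma muN_zero {n k : ℕ} (h : ¬ (3 * n ≤ k ∧ k ≤ 13 * n)) : muN n k = 0 := by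
  unfold muN mu
  have h1 : ¬ (3 * n ≤ k ∧ k + 3 * n ≤ 16 * n) := by omega
  have h2 : ¬ (4 * n ≤ k ∧ k + 4 * n ≤ 16 * n) := by omega
  simp [h1, h2]

/-- the norms of the coefficients of the inverse of a linear factor -/
lemma NS_iv_eq (m : ℕ) {a : ℚ} {d : ℕ} (ha : |a| = d) :
    NS m (iv a) = ∑ j ∈ Finset.range m, 1 / (d : ℝ) ^ (j + 1) := by
  unfold NS
  refine Finset.sum_congr rfl fun j _ => ?_
  unfold iv
  rw [PowerSeries.coeff_mk, norm_div, norm_pow, norm_pow]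
  have h2 : ‖(-1 : ℚ)‖ = 1 := by simp
  have h3 : ‖a‖ = (d : ℝ) := by
    rw [← Rat.norm_cast_real, Real.norm_eq_abs]
    exact_mod_cast ha
  rw [h2, h3, one_pow]

lemma fk_eq (M : ℕ) {k m : ℕ} (h : m ≠ k) :
    fk M k m = ∑ j ∈ Finset.range M, 1 / (((m - k) + (k - m) : ℕ) : ℝ) ^ (j + 1) := by
  unfold fk
  rw [if_neg h]
  apply NS_iv_eq
  rcases lt_or_gt_of_ne h with h1 | h1
  · rw [show ((m - k) + (k - m) : ℕ) = k - m by omega, Nat.cast_sub h1.le, abs_of_nonpos]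
    · ring
    · have : (m : ℚ) < k := by exact_mod_cast h1
      linarith
  · rw [show ((m - k) + (k - m) : ℕ) = m - k by omega, Nat.cast_sub h1.le, abs_of_nonneg]
    · ring
    · have : (k : ℚ) < m := by exact_mod_cast h1
      linarith

lemma fk_le_M {M : ℕ} (hM : 1 ≤ M) (k m : ℕ) : fk M k m ≤ M := by
  by_cases h : m = k
  · unfold fk
    rw [if_pos h]
    exact_mod_cast hM
  · rw [fk_eq M h]
    have h1 : ∀ j ∈ Finset.range M, 1 / (((m - k) + (k - m) : ℕ) : ℝ) ^ (j + 1) ≤ 1 := by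
      intro j _
      have h2 : (1 : ℝ) ≤ (((m - k) + (k - m) : ℕ) : ℝ) := by
        exact_mod_cast (by omega : 1 ≤ (m - k) + (k - m))
      rw [div_le_one (by positivity)]
      exact one_le_pow₀ h2
    refine (Finset.sum_le_sum h1).trans ?_
    simp

lemma fk_mono (M : ℕ) {k k' m : ℕ} (h' : m ≠ k') (h : (m - k') + (k' - m) ≤ (m - k) + (k - m)) :
    fk M k m ≤ fk M k' m := by
  rw [fk_eq M h', fk_eq M (by omega : m ≠ k)]
  refine Finset.sum_le_sum fun j _ => ?_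
  have h1 : (1 : ℝ) ≤ (((m - k') + (k' - m) : ℕ) : ℝ) := by
    exact_mod_cast (by omega : 1 ≤ (m - k') + (k' - m))
  have h2 : (((m - k') + (k' - m) : ℕ) : ℝ) ≤ (((m - k) + (k - m) : ℕ) : ℝ) := by exact_mod_cast h
  apply one_div_le_one_div_of_le (by positivity)
  exact pow_le_pow_left₀ (by linarith) h2 _

/-- a full brick, for an arbitrary point -/
lemma brick_out {M : ℕ} (hM : 1 ≤ M) {a b : ℕ} (hab : a ≤ b) (k : ℕ) :
    ∏ m ∈ Finset.Icc a b, fk M k m ≤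
      M * ((((b - a : ℕ) : ℝ) + 1) ^ (2 * M) * 2 ^ (b - a) / ((b - a).factorial : ℝ)) := by
  have hM' : (1 : ℝ) ≤ M := by exact_mod_cast hM
  have key : ∀ k' ∈ Finset.Icc a b, (∀ m ∈ Finset.Icc a b, (m - k') + (k' - m) ≤ (m - k) + (k - m)) →
      ∏ m ∈ Finset.Icc a b, fk M k m ≤
      M * ((((b - a : ℕ) : ℝ) + 1) ^ (2 * M) * 2 ^ (b - a) / ((b - a).factorial : ℝ)) := by
    intro k' hk' h
    rw [Finset.mem_Icc] at hk'
    have h1 := brick_le M hk'.1 hk'.2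
    have h2 : ∏ m ∈ Finset.Icc a b, fk M k m ≤ M * ∏ m ∈ Finset.Icc a b, fk M k' m := by
      have hm : k' ∈ Finset.Icc a b := Finset.mem_Icc.2 hk'
      rw [← Finset.mul_prod_erase (Finset.Icc a b) (fun m => fk M k m) hm,
        ← Finset.mul_prod_erase (Finset.Icc a b) (fun m => fk M k' m) hm]
      have hkk : fk M k' k' = 1 := by simp [fk]
      rw [hkk, one_mul]
      refine mul_le_mul (fk_le_M hM _ _) ?_ (Finset.prod_nonneg fun m _ => fk_nonneg _ _ _) (by linarith)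
      refine Finset.prod_le_prod (fun m _ => fk_nonneg _ _ _) fun m hm => ?_
      rw [Finset.mem_erase] at hm
      exact fk_mono M hm.1 (h m hm.2)
    refine h2.trans ?_
    exact mul_le_mul_of_nonneg_left h1 (by linarith)
  rcases lt_or_ge k a with h | h
  · apply key a (Finset.mem_Icc.2 ⟨le_rfl, hab⟩)
    intro m hm
    rw [Finset.mem_Icc] at hm
    omega
  · rcases lt_or_ge b k with h' | h'
    · apply key b (Finset.mem_Icc.2 ⟨hab, le_rfl⟩)
      intro m hm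
      rw [Finset.mem_Icc] at hm
      omega
    · exact key k (Finset.mem_Icc.2 ⟨h, h'⟩) (fun m _ => le_rfl)

lemma VV_le {n k : ℕ} (hn : 1 ≤ n) (h3 : 3 * n ≤ k) (h13 : k ≤ 13 * n) :
    NS 10 (VV ((sN n).erase k) (muN n) (-(k : ℚ))) ≤
      (10 * ((((10 * n : ℕ) : ℝ) + 1) ^ (2 * 10) * 2 ^ (10 * n) / ((10 * n).factorial : ℝ))) ^ 6 *
      (10 * ((((8 * n : ℕ) : ℝ) + 1) ^ (2 * 10) * 2 ^ (8 * n) / ((8 * n).factorial : ℝ))) ^ 4 := by
  have hks : k ∈ sN n := by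
    unfold sN ss
    rw [Finset.mem_Icc]
    omega
  unfold VV
  refine (NS_prod _ _ _).trans ?_
  have h1 : ∏ m ∈ (sN n).erase k, NS 10 (iv (-(k : ℚ) + m) ^ muN n m) ≤ ∏ m ∈ sN n, fk 10 k m ^ muN n m := by
    rw [← Finset.mul_prod_erase (sN n) (fun m => fk 10 k m ^ muN n m) hks]
    have hkk : fk 10 k k = 1 := by simp [fk]
    rw [hkk, one_pow, one_mul]
    refine Finset.prod_le_prod (fun m _ => NS_nonneg _ _) fun m hm => ?_
    rw [Finset.mem_erase] at hm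
    refine (NS_pow _ _ _).trans (le_of_eq ?_)
    unfold fk
    rw [if_neg hm.1]
  refine h1.trans ?_
  have h2 := prod_mu 16 2 n ds10 hn (by decide) (by decide) (fk 10 k)
  rw [h2]
  have b := brick_out (M := 10) (by norm_num) (a := 3 * n) (b := 16 * n - 3 * n) (by omega) k
  rw [show 16 * n - 3 * n - 3 * n = 10 * n by omega] at b
  have b' := brick_out (M := 10) (by norm_num) (a := 4 * n) (b := 16 * n - 4 * n) (by omega) k
  rw [show 16 * n - 4 * n - 4 * n = 8 * n by omega] at b'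
  have p0 : ∀ a b : ℕ, 0 ≤ ∏ m ∈ Finset.Icc a b, fk 10 k m := fun a b =>
    Finset.prod_nonneg fun m _ => fk_nonneg _ _ _
  have e : (List.map (fun d => ∏ m ∈ Finset.Icc (d * n) (16 * n - d * n), fk 10 k m) ds10).prod =
      (∏ m ∈ Finset.Icc (3 * n) (16 * n - 3 * n), fk 10 k m) ^ 6 *
      (∏ m ∈ Finset.Icc (4 * n) (16 * n - 4 * n), fk 10 k m) ^ 4 := by
    simp only [List.map_cons, List.map_nil, List.prod_cons, List.prod_nil]
    ring
  rw [e]
  refine mul_le_mul (pow_le_pow_left₀ (p0 _ _) ?_ 6) (pow_le_pow_left₀ (p0 _ _) ?_ 4) (pow_nonneg (p0 _ _) _)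
    (by positivity)
  · exact_mod_cast b
  · exact_mod_cast b'

/-- the constant -/
def KK (n : ℕ) : ℝ := (14 * n) * ((((92 * n + 10 : ℕ) : ℝ) *
  ((Real.exp (2 * Real.pi * (((92 * n + 10 : ℕ) : ℝ) / 16)) * (19.7 * (n : ℝ)) ^ (92 * n + 10)) *
  ((19.8 * (n : ℝ)) ^ (92 * n + 9) / ((7 / 160) ^ (92 * n + 9) * ((92 * n + 9).factorial : ℝ))))) *
  ((10 * ((((10 * n : ℕ) : ℝ) + 1) ^ (2 * 10) * 2 ^ (10 * n) / ((10 * n).factorial : ℝ))) ^ 6 *
      (10 * ((((8 * n : ℕ) : ℝ) + 1) ^ (2 * 10) * 2 ^ (8 * n) / ((8 * n).factorial : ℝ))) ^ 4))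

/-- the coefficient of `u i`, up to a binomial -/
def rho (n : ℕ) (Q : ℚ[X]) (i : ℕ) : ℚ := ∑ k ∈ sN n, pa (sN n) (muN n) (PPn n * EE n Q) k i

lemma sum_muN {n : ℕ} (hn : 1 ≤ n) : 92 * n + 10 = ∑ m ∈ sN n, muN n m := by
  rw [← B1_QQ_deg hn, QQ_natDegree]

theorem rho_le {n : ℕ} (hn : 50 ≤ n) (Q : ℚ[X]) (hQ : Q.natDegree ≤ 36 * n - 38) (B : ℝ)
    (hB : ∀ r : ℝ, 0 ≤ r → ‖aeval (z0 r) (PPn n * EE n Q) / aeval (z0 r) (QQ (sN n) (muN n))‖ *
      Real.exp (-(2 * Real.pi * r)) ≤ B * (1 + r ^ 2)⁻¹) (i : ℕ) (hi : 1 ≤ i) :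
    |((rho n Q i : ℚ) : ℝ)| ≤ B * KK n := by
  have hB0 : 0 ≤ B := by
    have h := hB 0 le_rfl
    simp only [mul_zero, neg_zero, Real.exp_zero, mul_one, ne_eq, OfNat.ofNat_ne_zero,
      not_false_eq_true, zero_pow, add_zero, inv_one] at h
    exact le_trans (by positivity) h
  have hn1 : (50 : ℝ) ≤ n := by exact_mod_cast hn
  have hdeg := B1_deg (n := n) (by omega) Q hQ
  rw [B1_QQ_deg (by omega)] at hdeg
  set P := PPn n * EE n Q with hP
  have hr : ∀ r : ℝ, 0 ≤ r → r ≤ ((92 * n + 10 : ℕ) : ℝ) / 16 → ∀ m : ℕ, m ≤ 13 * n → ‖z0 r + m‖ ≤ 19.7 * n := by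
    intro r hr0 hr1 m hm
    have hm' : (m : ℝ) ≤ 13 * n := by exact_mod_cast hm
    have hm0 : (0 : ℝ) ≤ m := by positivity
    have hr2 : r ≤ 5.75 * n + 5 / 8 := by
      push_cast at hr1
      linarith
    have h1 := z0_add_sq r (m : ℝ)
    have h2 : ‖z0 r + m‖ ^ 2 = (-1 / 2 + r + m) ^ 2 + r ^ 2 := by
      rw [← h1]; simp
    have h3 : (-1 / 2 + r + m) ^ 2 ≤ (18.75 * n + 1 / 8) ^ 2 := by
      apply sq_le_sq'
      · linarith
      · linarith
    have h4 : r ^ 2 ≤ (5.75 * n + 5 / 8) ^ 2 := pow_le_pow_left₀ hr0 hr2 2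
    apply le_of_sq_le_sq _ (by positivity)
    rw [h2]
    nlinarith
  set A : ℝ := B * (((92 * n + 10 : ℕ) : ℝ) *
    ((Real.exp (2 * Real.pi * (((92 * n + 10 : ℕ) : ℝ) / 16)) * (19.7 * (n : ℝ)) ^ (92 * n + 10)) *
    ((19.8 * (n : ℝ)) ^ (92 * n + 9) / ((7 / 160) ^ (92 * n + 9) * ((92 * n + 9).factorial : ℝ))))) with hA
  set V : ℝ := (10 * ((((10 * n : ℕ) : ℝ) + 1) ^ (2 * 10) * 2 ^ (10 * n) / ((10 * n).factorial : ℝ))) ^ 6 *
      (10 * ((((8 * n : ℕ) : ℝ) + 1) ^ (2 * 10) * 2 ^ (8 * n) / ((8 * n).factorial : ℝ))) ^ 4 with hV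
  have hA0 : 0 ≤ A := by rw [hA]; positivity
  have hV0 : 0 ≤ V := by rw [hV]; positivity
  have hpa : ∀ k ∈ sN n, |((pa (sN n) (muN n) P k i : ℚ) : ℝ)| ≤ A * V := by
    intro k hk
    by_cases h : 3 * n ≤ k ∧ k ≤ 13 * n
    · refine pa_le 10 (sN n) (muN n) P k i (muN_le n k) hi A V ?_ ?_ (by positivity)
      · have h1 := NS_line 10 (sN n) (muN n) P (92 * n + 10) (sum_muN (by omega)) (by omega)
          (fun k hk => by
            have hk' : k ∈ Finset.Icc (2 * n + 1) (16 * n - 2 * n - 1) := hk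
            rw [Finset.mem_Icc] at hk'
            omega) B (19.7 * n) (19.8 * n) hB
          (fun m _ hμ r hr0 hr1 => hr r hr0 hr1 m (by
            by_contra hcon
            exact hμ (muN_zero (by omega)))) k
          (fun r hr0 hr1 => by
            have := hr r hr0 hr1 k h.2
            linarith)
        rw [show 92 * n + 10 - 1 = 92 * n + 9 by omega] at h1
        exact h1
      · exact VV_le (by omega) h.1 h.2
    · unfold pa
      rw [muN_zero h, if_neg (by omega)]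
      simp only [Rat.cast_zero, abs_zero]
      positivity
  unfold rho
  push_cast
  refine (Finset.abs_sum_le_sum_abs _ _).trans ?_
  refine (Finset.sum_le_sum hpa).trans ?_
  rw [Finset.sum_const, nsmul_eq_mul]
  have hcard : (((sN n).card : ℕ) : ℝ) ≤ 14 * n := by
    have h1 : (sN n).card ≤ 14 * n := by
      unfold sN ss
      rw [Nat.card_Icc]
      omega
    exact_mod_cast h1
  refine (mul_le_mul_of_nonneg_right hcard (by positivity)).trans (le_of_eq ?_)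
  unfold KK
  rw [← hV, hA]
  clear_value V
  generalize Real.exp (2 * Real.pi * (((92 * n + 10 : ℕ) : ℝ) / 16)) * (19.7 * (n : ℝ)) ^ (92 * n + 10) = E1
  generalize ((19.8 * (n : ℝ)) ^ (92 * n + 9) / ((7 / 160) ^ (92 * n + 9) * ((92 * n + 9).factorial : ℝ))) = E2
  ring

end

end Pool.Agent.Run7.h6.ZM
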